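import Pool.Agent.Helper52.AT.Defs

set_option autoImplicit false

namespace Pool.Agent.Helper52.AT

open Filter Topology IsLocalRing

namespace Kill

variable {O : Type*} [CommRing O] [Algebra ℂ O] (T : O →ₐ[ℂ] O)

lemma nil (a : O) : appT T [] a = a := rfl

lemma cons (μ : ℂ) (L : List ℂ) (a : O) : appT T (μ :: L) a = appT T L (T a - μ • a) := rfl

lemma append (L L' : List ℂ) (a : O) : appT T (L ++ L') a = appT T L' (appT T L a) := by
  unfold appT
  rw [List.foldl_append]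

lemma add (L : List ℂ) : ∀ a b : O, appT T L (a + b) = appT T L a + appT T L b := by
  induction L with
  | nil => intro a b; rfl
  | cons μ L ih =>
    intro a b
    rw [cons, cons, cons, ← ih, map_add, smul_add]
    congr 1
    abel

lemma smul (L : List ℂ) : ∀ (c : ℂ) (a : O), appT T L (c • a) = c • appT T L a := by
  induction L with
  | nil => intro c a; rfl
  | cons μ L ih =>
    intro c a
    rw [cons, cons, ← ih, map_smul, smul_sub, smul_comm]

lemma sub (L : List ℂ) (a b : O) : appT T L (a - b) = appT T L a - appT T L b := by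
  have h : a - b = a + (-1 : ℂ) • b := by rw [neg_one_smul]; abel
  rw [h, add, smul, neg_one_smul]
  abel

lemma comm (L : List ℂ) : ∀ a : O, appT T L (T a) = T (appT T L a) := by
  induction L with
  | nil => intro a; rfl
  | cons μ L ih =>
    intro a
    rw [cons, cons, ← ih, map_sub, map_smul]

lemma comm' (L L' : List ℂ) : ∀ a : O, appT T L (appT T L' a) = appT T L' (appT T L a) := by
  induction L with
  | nil => intro a; rfl
  | cons μ L ih =>
    intro a
    have e : appT T L' (T a - μ • a) = T (appT T L' a) - μ • appT T L' a := by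
      rw [sub, comm, smul]
    rw [cons, cons, ← ih, e]

lemma mem {U : Submodule ℂ O} (hU : ∀ a ∈ U, T a ∈ U) (L : List ℂ) :
    ∀ a ∈ U, appT T L a ∈ U := by
  induction L with
  | nil => intro a ha; exact ha
  | cons μ L ih =>
    intro a ha
    rw [cons]
    exact ih _ (U.sub_mem (hU a ha) (U.smul_mem μ ha))

lemma prod {U : Submodule ℂ O} (hU : ∀ a ∈ U, T a ∈ U) (Mo : Submonoid ℂ) :
    ∀ (n : ℕ) (L₁ L₂ : List ℂ), L₁.length + L₂.length = n → (∀ μ ∈ L₁, μ ∈ Mo) →
      (∀ μ ∈ L₂, μ ∈ Mo) → ∀ (W₁ W₂ U₁ U₂ : Set O), (∀ f ∈ W₁, T f ∈ W₁) → (∀ f ∈ W₂, T f ∈ W₂) →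
      (∀ x ∈ U₁, ∀ y ∈ W₂, x * y ∈ U) → (∀ x ∈ W₁, ∀ y ∈ U₂, x * y ∈ U) →
      (∀ f ∈ W₁, appT T L₁ f ∈ U₁) → (∀ g ∈ W₂, appT T L₂ g ∈ U₂) →
      ∃ L : List ℂ, (∀ μ ∈ L, μ ∈ Mo) ∧ ∀ f ∈ W₁, ∀ g ∈ W₂, appT T L (f * g) ∈ U := by
  intro n
  induction n with
  | zero =>
    intro L₁ L₂ hn _ _ W₁ W₂ U₁ U₂ _ _ h1 _ h3 _
    have : L₁ = [] := List.length_eq_zero_iff.1 (by omega)
    subst this
    exact ⟨[], by simp, fun f hf g hg => h1 _ (h3 f hf) _ hg⟩
  | succ n ih =>
    intro L₁ L₂ hn hL₁ hL₂ W₁ W₂ U₁ U₂ hW₁ hW₂ h1 h2 h3 h4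
    rcases L₁ with _ | ⟨μ, L₁⟩
    · exact ⟨[], by simp, fun f hf g hg => h1 _ (h3 f hf) _ hg⟩
    rcases L₂ with _ | ⟨ν, L₂⟩
    · exact ⟨[], by simp, fun f hf g hg => h2 _ hf _ (h4 g hg)⟩
    obtain ⟨La, ha1, ha2⟩ := ih L₁ (ν :: L₂) (by simp only [List.length_cons] at hn ⊢; omega)
      (fun x hx => hL₁ x (List.mem_cons_of_mem _ hx)) hL₂
      ((fun f => T f - μ • f) '' W₁) W₂ U₁ U₂
      (by
        rintro _ ⟨f, hf, rfl⟩
        exact ⟨T f, hW₁ f hf, by simp only [map_sub, map_smul]⟩)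
      hW₂ h1
      (by
        rintro _ ⟨f, hf, rfl⟩ y hy
        simp only
        rw [sub_mul, smul_mul_assoc]
        exact U.sub_mem (h2 _ (hW₁ f hf) y hy) (U.smul_mem μ (h2 f hf y hy)))
      (by
        rintro _ ⟨f, hf, rfl⟩
        exact h3 f hf)
      h4
    obtain ⟨Lb, hb1, hb2⟩ := ih (μ :: L₁) L₂ (by simp only [List.length_cons] at hn ⊢; omega)
      hL₁ (fun x hx => hL₂ x (List.mem_cons_of_mem _ hx))
      W₁ ((fun f => T f - ν • f) '' W₂) U₁ U₂ hW₁
      (by
        rintro _ ⟨f, hf, rfl⟩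
        exact ⟨T f, hW₂ f hf, by simp only [map_sub, map_smul]⟩)
      (by
        rintro x hx _ ⟨f, hf, rfl⟩
        simp only
        rw [mul_sub, mul_smul_comm]
        exact U.sub_mem (h1 x hx _ (hW₂ f hf)) (U.smul_mem ν (h1 x hx f hf)))
      h2 h3
      (by
        rintro _ ⟨f, hf, rfl⟩
        exact h4 f hf)
    refine ⟨(μ * ν) :: (La ++ Lb), ?_, ?_⟩
    · intro x hx
      rcases List.mem_cons.1 hx with rfl | hx
      · exact Mo.mul_mem (hL₁ μ (List.mem_cons_self)) (hL₂ ν (List.mem_cons_self))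
      · rcases List.mem_append.1 hx with hx | hx
        · exact ha1 x hx
        · exact hb1 x hx
    · intro f hf g hg
      rw [cons, append]
      have e : T (f * g) - (μ * ν) • (f * g)
          = (T f - μ • f) * T g + μ • (f * (T g - ν • g)) := by
        rw [map_mul, sub_mul, mul_sub, smul_sub, smul_mul_assoc, mul_smul_comm, mul_smul]
        abel
      rw [e, add, add, smul, smul]
      refine U.add_mem ?_ (U.smul_mem μ ?_)
      · exact mem T hU Lb _ (ha2 _ ⟨f, hf, rfl⟩ _ (hW₂ g hg))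
      · rw [comm']
        exact mem T hU La _ (hb2 f hf _ ⟨g, hg, rfl⟩)

end Kill

/-! ## AT-KILL -/
theorem kill_all {O : Type} [CommRing O] [Algebra ℂ O] (T : O →ₐ[ℂ] O) (m : Ideal O)
    (hT : ∀ a ∈ m, T a ∈ m) (hres : ∀ a, ∃ c : ℂ, a - algebraMap ℂ O c ∈ m) (L₁ : List ℂ)
    (h₁ : ∀ a ∈ m, appT T L₁ a ∈ m ^ 2) :
    ∀ k : ℕ, ∃ L : List ℂ, (∀ μ ∈ L, μ ∈ Submonoid.closure {x | x ∈ L₁}) ∧
      ∀ a, appT T L a ∈ m ^ k := by
  set Mo := Submonoid.closure {x : ℂ | x ∈ L₁} with hMo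
  have hle : m ≤ m.comap T := fun a ha => hT a ha
  have hTk : ∀ (k : ℕ) (a : O), a ∈ m ^ k → T a ∈ m ^ k := by
    intro k a ha
    have h1 : m ^ k ≤ (m ^ k).comap T :=
      le_trans (Ideal.pow_right_mono hle k) (Ideal.le_comap_pow T k)
    exact h1 ha
  have hL₁ : ∀ μ ∈ L₁, μ ∈ Mo := fun μ hμ => Submonoid.subset_closure hμ
  -- one graded piece at a time
  have hpiece : ∀ k : ℕ, ∃ L : List ℂ, (∀ μ ∈ L, μ ∈ Mo) ∧ ∀ a ∈ m ^ (k + 1),
      appT T L a ∈ m ^ (k + 2) := by
    intro k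
    induction k with
    | zero =>
      refine ⟨L₁, hL₁, fun a ha => ?_⟩
      rw [zero_add, pow_one] at ha
      exact h₁ a ha
    | succ k ih =>
      obtain ⟨Lk, hLk, hk⟩ := ih
      obtain ⟨L, hL, hL'⟩ := Kill.prod T (U := (m ^ (k + 3)).restrictScalars ℂ)
        (fun a ha => hTk _ a ha) Mo _ Lk L₁ rfl hLk hL₁ (m ^ (k + 1) : Ideal O) (m : Ideal O)
        (m ^ (k + 2) : Ideal O) (m ^ 2 : Ideal O) (fun f hf => hTk _ f hf) (fun f hf => hT f hf)
        (fun x hx y hy => by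
          have : x * y ∈ m ^ (k + 2) * m := Ideal.mul_mem_mul hx hy
          rw [← pow_succ] at this
          exact this)
        (fun x hx y hy => by
          have : x * y ∈ m ^ (k + 1) * m ^ 2 := Ideal.mul_mem_mul hx hy
          rw [← pow_add] at this
          exact this)
        hk h₁
      refine ⟨L, hL, fun a ha => ?_⟩
      rw [pow_succ] at ha
      refine Submodule.mul_induction_on ha (fun x hx y hy => hL' x hx y hy) (fun x y hx hy => ?_)
      rw [Kill.add]
      exact Ideal.add_mem _ hx hy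
  intro k
  induction k with
  | zero =>
    refine ⟨[], by simp, fun a => ?_⟩
    rw [pow_zero, Ideal.one_eq_top]
    trivial
  | succ k ih =>
    obtain ⟨L, hL, hL'⟩ := ih
    rcases k with _ | k
    · refine ⟨[1], ?_, fun a => ?_⟩
      · intro μ hμ
        rw [List.mem_singleton.1 hμ]
        exact Mo.one_mem
      · rw [zero_add, pow_one, Kill.cons, Kill.nil, one_smul]
        obtain ⟨c, hc⟩ := hres a
        have e : T a - a = T (a - algebraMap ℂ O c) - (a - algebraMap ℂ O c) := by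
          rw [map_sub, AlgHom.commutes]
          abel
        rw [e]
        exact Ideal.sub_mem _ (hT _ hc) hc
    · obtain ⟨L2, hL2, hL2'⟩ := hpiece k
      refine ⟨L ++ L2, ?_, fun a => ?_⟩
      · intro x hx
        rcases List.mem_append.1 hx with hx | hx
        · exact hL x hx
        · exact hL2 x hx
      · rw [Kill.append]
        exact hL2' _ (hL' a)

end Pool.Agent.Helper52.AT
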